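import Pool.Agent.W770.PC.CutStms
set_option autoImplicit false

/-!
# Part PC-cutS: cutting off to a half space
-/

open MeasureTheory Set Filter Topology
open scoped ENNReal NNReal RealInnerProductSpace Pointwise

namespace Pool.Agent.W131.PC2

open Pool.Agent.W770.PC
open Pool.Agent.H789R2.FR (E sg)

theorem exists_basis (ω : E 3) (hω : ‖ω‖ = 1) :
    ∃ b : OrthonormalBasis (Fin 3) ℝ (E 3), b 0 = ω := by
  have horth : Orthonormal ℝ (({0} : Set (Fin 3)).domRestrict (fun _ => ω)) := by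
    constructor
    · intro i; exact hω
    · intro i j hij
      exact absurd (Subtype.ext ((Set.mem_singleton_iff.1 i.2).trans
        (Set.mem_singleton_iff.1 j.2).symm)) hij
  obtain ⟨b, hb⟩ := Orthonormal.exists_orthonormalBasis_extension_of_card_eq
    (ι := Fin 3) (𝕜 := ℝ) (E := E 3) (by simp) horth
  exact ⟨b, hb 0 (by simp)⟩

theorem exists_coord (b : OrthonormalBasis (Fin 3) ℝ (E 3)) :
    ∃ Φ : E 3 ≃ᵐ ℝ × (Fin 2 → ℝ), MeasurePreserving Φ volume volume ∧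
      (∀ ξ, (Φ ξ).1 = ⟪b 0, ξ⟫) ∧ ∀ ξ j, (Φ ξ).2 j = ⟪b (Fin.succ j), ξ⟫ := by
  refine ⟨(b.measurableEquiv).trans ((MeasurableEquiv.toLp 2 (Fin 3 → ℝ)).symm.trans
    (MeasurableEquiv.piFinSuccAbove (fun _ => ℝ) 0)), ?_, ?_, ?_⟩
  · exact (b.measurePreserving_measurableEquiv).trans
      ((EuclideanSpace.volume_preserving_symm_measurableEquiv_toLp (Fin 3)).trans
        (volume_preserving_piFinSuccAbove (fun _ : Fin 3 => ℝ) 0))
  · intro ξ
    rw [← b.repr_apply_apply]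
    rfl
  · intro ξ j
    rw [← b.repr_apply_apply]
    rfl

theorem ae_norm : ∀ᵐ x ∂(sg 3), ‖x‖ = 1 := by
  rw [ae_iff]
  have hm : MeasurableSet {a : E 3 | ¬‖a‖ = 1} :=
    (measurableSet_eq_fun measurable_norm measurable_const).compl
  rw [sg, Measure.map_apply measurable_subtype_coe hm]
  have : (Subtype.val ⁻¹' {a | ¬‖a‖ = 1} : Set (Metric.sphere (0 : E 3) 1)) = ∅ := by
    ext ⟨x, hx⟩
    simp at hx ⊢
  rw [this]; simp

instance : IsFiniteMeasure (sg 3) := by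
  unfold sg; infer_instance

/-- the cone is a null set -/
theorem cone_null (b : OrthonormalBasis (Fin 3) ℝ (E 3)) (c : ℝ) :
    volume {y : E 3 | ⟪b 0, y⟫ = c * ‖y‖} = 0 := by
  obtain ⟨Φ, hΦ, h0, h1⟩ := exists_coord b
  set S : Set (ℝ × (Fin 2 → ℝ)) :=
    {z | z.1 = c * Real.sqrt (z.1 ^ 2 + (z.2 0 ^ 2 + z.2 1 ^ 2))} with hS
  have hSm : MeasurableSet S := by
    refine measurableSet_eq_fun measurable_fst ?_
    fun_prop
  have hsub : {y : E 3 | ⟪b 0, y⟫ = c * ‖y‖} = Φ ⁻¹' S := by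
    ext y
    simp only [mem_ofPred_eq, mem_preimage, hS]
    rw [h0, h1, h1]
    have : ‖y‖ = Real.sqrt (⟪b 0, y⟫ ^ 2 + (⟪b (Fin.succ 0), y⟫ ^ 2 + ⟪b (Fin.succ 1), y⟫ ^ 2)) := by
      rw [← Real.sqrt_sq (norm_nonneg y)]
      congr 1
      have := b.sum_inner_mul_inner y y
      rw [real_inner_self_eq_norm_sq] at this
      rw [← this, Fin.sum_univ_three]
      simp only [real_inner_comm y]
      have e1 : Fin.succ (0 : Fin 2) = 1 := rfl
      have e2 : Fin.succ (1 : Fin 2) = 2 := rfl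
      rw [e1, e2]
      ring
    rw [this]
  rw [hsub, hΦ.measure_preimage hSm.nullMeasurableSet]
  change (volume.prod volume) S = 0
  rw [Measure.prod_apply_symm hSm]
  rw [lintegral_eq_zero_iff (measurable_measure_prodMk_right hSm)]
  have hne : ∀ᵐ v : Fin 2 → ℝ, v ≠ 0 := by
    rw [ae_iff]; simp
  filter_upwards [hne] with v hv
  simp only [Pi.zero_apply]
  set ρ := v 0 ^ 2 + v 1 ^ 2 with hρ
  have hρ0 : 0 < ρ := by
    rcases eq_or_ne (v 0) 0 with h | h
    · rcases eq_or_ne (v 1) 0 with h' | h'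
      · exfalso; apply hv; funext i; fin_cases i <;> simp [h, h']
      · positivity
    · positivity
  have hsub2 : (fun x => (x, v)) ⁻¹' S ⊆
      ({Real.sqrt (c ^ 2 * ρ / (1 - c ^ 2)), -Real.sqrt (c ^ 2 * ρ / (1 - c ^ 2))} : Set ℝ) := by
    intro τ hτ
    simp only [mem_preimage, hS, mem_ofPred_eq] at hτ
    rw [← hρ] at hτ
    have hsq : τ ^ 2 = c ^ 2 * (τ ^ 2 + ρ) := by
      conv_lhs => rw [hτ]
      rw [mul_pow, Real.sq_sqrt (by positivity)]
    have hc : 1 - c ^ 2 ≠ 0 := by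
      intro h
      have hc2 : c ^ 2 = 1 := by linarith
      rw [hc2] at hsq
      linarith
    have hq : τ ^ 2 = c ^ 2 * ρ / (1 - c ^ 2) := by
      rw [eq_div_iff hc]; linarith
    rw [← hq, Real.sqrt_sq_eq_abs]
    rcases abs_choice τ with h | h
    · left; rw [h]
    · right; rw [h]; simp
  exact measure_mono_null hsub2 ((Set.toFinite _).measure_zero _)

theorem slice_null (ω : E 3) (hω : ‖ω‖ = 1) (c : ℝ) : sg 3 {x : E 3 | ⟪ω, x⟫ = c} = 0 := by
  obtain ⟨b, rfl⟩ := exists_basis ω hω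
  have hm : MeasurableSet {x : E 3 | ⟪b 0, x⟫ = c} :=
    measurableSet_eq_fun (by fun_prop) measurable_const
  rw [sg, Measure.map_apply measurable_subtype_coe hm,
    Measure.toSphere_apply' _ (measurable_subtype_coe hm)]
  have : volume (Ioo (0 : ℝ) 1 • ((↑) '' (Subtype.val ⁻¹' {x : E 3 | ⟪b 0, x⟫ = c} :
      Set (Metric.sphere (0 : E 3) 1)) : Set (E 3))) = 0 := by
    refine measure_mono_null ?_ (cone_null b c)
    rintro y hy
    simp only [Set.mem_smul, Subtype.image_preimage_coe, mem_inter_iff] at hy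
    obtain ⟨r, hr, x, ⟨hx2, hx1⟩, rfl⟩ := hy
    simp only [mem_ofPred_eq, mem_sphere_iff_norm, sub_zero] at hx1 hx2 ⊢
    rw [inner_smul_right, norm_smul, Real.norm_eq_abs, abs_of_pos hr.1]
    have hx2' : ‖x‖ = 1 := by simpa using hx2
    rw [hx2', hx1]; ring
  rw [this, mul_zero]

theorem norm_ee (x : ℝ) : ‖ee x‖ = 1 := by
  unfold ee; exact Complex.norm_exp_ofReal_mul_I x

theorem ee_add (x y : ℝ) : ee (x + y) = ee x * ee y := by
  unfold ee; push_cast; rw [add_mul, Complex.exp_add]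

theorem cont_ee : Continuous ee := by unfold ee; fun_prop

theorem SF_cont (g : E 3 → ℂ) (hg : Measurable g) (M : ℝ) (hM : ∀ x, ‖g x‖ ≤ M) :
    Continuous (SF g) := by
  unfold SF
  refine continuous_of_dominated (bound := fun _ => M) ?_ ?_ (integrable_const M) ?_
  · intro ξ
    refine (Measurable.mul (cont_ee.measurable.comp ?_) hg).aestronglyMeasurable
    fun_prop
  · intro ξ
    refine Eventually.of_forall fun x => ?_
    rw [norm_mul, norm_ee, one_mul]; exact hM x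
  · refine Eventually.of_forall fun x => ?_
    refine Continuous.mul (cont_ee.comp ?_) continuous_const
    fun_prop

theorem scale_lint (H : ℝ → ℝ≥0∞) (a : ℝ) (ha : a ≠ 0) :
    ∫⁻ X, H X = ENNReal.ofReal |a| * ∫⁻ τ, H (a * τ) := by
  conv_lhs => rw [← Real.smul_map_volume_mul_left ha]
  rw [lintegral_smul_measure]
  have : MeasurableEmbedding (fun x : ℝ => a * x) :=
    (Homeomorph.mulLeft₀ a ha).measurableEmbedding
  rw [this.lintegral_map]
  rfl

/-- the inequality of `S_rieszA` for given exponent and constant -/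
def RZ (p C : ℝ) : Prop := ∀ (α : Type) (_ : MeasurableSpace α) (ν : Measure α),
    IsFiniteMeasure ν → ∀ (s : α → ℝ) (G : α → ℂ) (M : ℝ), Measurable s → Measurable G →
    (∀ a, |s a| ≤ M) → (∀ a, ‖G a‖ ≤ M) → ∀ c : ℝ, ν {a | s a = c} = 0 →
    ∫⁻ x : ℝ, ‖∫ a in {a | c ≤ s a}, G a * ee (x * s a) ∂ν‖ₑ ^ p ≤
      ENNReal.ofReal C * ∫⁻ x : ℝ, ‖∫ a, G a * ee (x * s a) ∂ν‖ₑ ^ p

theorem fiber (p C : ℝ) (hR : RZ p C) (g : E 3 → ℂ) (M : ℝ) (hg : Measurable g)
    (hM : ∀ x, ‖g x‖ ≤ M) (b : OrthonormalBasis (Fin 3) ℝ (E 3)) (c : ℝ)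
    (Φ : E 3 ≃ᵐ ℝ × (Fin 2 → ℝ)) (h0 : ∀ ξ, (Φ ξ).1 = ⟪b 0, ξ⟫)
    (h1 : ∀ ξ j, (Φ ξ).2 j = ⟪b (Fin.succ j), ξ⟫) (v : Fin 2 → ℝ) :
    ∫⁻ τ : ℝ, ‖SF ({x : E 3 | c ≤ ⟪b 0, x⟫}.indicator g) (Φ.symm (τ, v))‖ₑ ^ p ≤
      ENNReal.ofReal C * ∫⁻ τ : ℝ, ‖SF g (Φ.symm (τ, v))‖ₑ ^ p := by
  set s : E 3 → ℝ := fun x => max (-1) (min 1 ⟪b 0, x⟫) with hs
  set R : E 3 → ℝ := fun x => ⟪b (Fin.succ 0), x⟫ * v 0 + ⟪b (Fin.succ 1), x⟫ * v 1 with hRd
  set G : E 3 → ℂ := fun x => g x * ee (-(2 * Real.pi * R x)) with hG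
  have hsm : Measurable s := by rw [hs]; fun_prop
  have hRm : Measurable R := by rw [hRd]; fun_prop
  have hGm : Measurable G := hg.mul (cont_ee.measurable.comp (by fun_prop))
  have hinner : ∀ (x : E 3) (τ : ℝ), ⟪x, Φ.symm (τ, v)⟫ = τ * ⟪b 0, x⟫ + R x := by
    intro x τ
    have e0 := h0 (Φ.symm (τ, v))
    have e1 := h1 (Φ.symm (τ, v)) 0
    have e2 := h1 (Φ.symm (τ, v)) 1
    simp only [MeasurableEquiv.apply_symm_apply] at e0 e1 e2
    rw [← b.sum_inner_mul_inner x (Φ.symm (τ, v)), Fin.sum_univ_three]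
    have f1 : Fin.succ (0 : Fin 2) = 1 := rfl
    have f2 : Fin.succ (1 : Fin 2) = 2 := rfl
    rw [hRd]
    simp only [f1, f2] at e1 e2 ⊢
    rw [← e0, ← e1, ← e2, real_inner_comm x (b 0), real_inner_comm x (b 1),
      real_inner_comm x (b 2)]
    ring
  have hss : ∀ x : E 3, ‖x‖ = 1 → s x = ⟪b 0, x⟫ := by
    intro x hx
    have := abs_real_inner_le_norm (b 0) x
    rw [b.norm_eq_one, hx, one_mul] at this
    have := abs_le.1 this
    rw [hs]
    simp only
    rw [min_eq_right this.2, max_eq_right this.1]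
  have hA : ∀ τ, SF g (Φ.symm (τ, v)) = ∫ x, G x * ee ((-(2 * Real.pi)) * τ * s x) ∂(sg 3) := by
    intro τ
    unfold SF
    refine integral_congr_ae ?_
    filter_upwards [ae_norm] with x hx
    rw [hinner, hss x hx, hG]
    simp only
    rw [mul_assoc (g x), ← ee_add, mul_comm]
    congr 2
    ring
  have hB : ∀ τ, SF ({x : E 3 | c ≤ ⟪b 0, x⟫}.indicator g) (Φ.symm (τ, v)) =
      ∫ x in {x | c ≤ s x}, G x * ee ((-(2 * Real.pi)) * τ * s x) ∂(sg 3) := by
    intro τ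
    rw [← integral_indicator (measurableSet_le measurable_const hsm)]
    unfold SF
    refine integral_congr_ae ?_
    filter_upwards [ae_norm] with x hx
    have hx' := hss x hx
    by_cases hc : c ≤ ⟪b 0, x⟫
    · rw [indicator_of_mem (show x ∈ {x : E 3 | c ≤ ⟪b 0, x⟫} from hc),
        indicator_of_mem (show x ∈ {x | c ≤ s x} from by
          change c ≤ s x; rw [hx']; exact hc)]
      rw [hinner, hx', hG]
      simp only
      rw [mul_assoc (g x), ← ee_add, mul_comm]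
      congr 2
      ring
    · rw [indicator_of_notMem (show x ∉ {x : E 3 | c ≤ ⟪b 0, x⟫} from hc),
        indicator_of_notMem (show x ∉ {x | c ≤ s x} from by
          change ¬ c ≤ s x; rw [hx']; exact hc), mul_zero]
  have hnull : sg 3 {a | s a = c} = 0 := by
    have hn := slice_null (b 0) (b.norm_eq_one 0) c
    have hu : sg 3 ({x : E 3 | ⟪b 0, x⟫ = c} ∪ {x | ¬ ‖x‖ = 1}) = 0 :=
      measure_union_null hn (ae_iff.1 ae_norm)
    refine measure_mono_null ?_ hu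
    intro x hx
    by_cases hx1 : ‖x‖ = 1
    · left
      change ⟪b 0, x⟫ = c
      rw [← hss x hx1]; exact hx
    · right; exact hx1
  have hmain := hR (E 3) inferInstance (sg 3) inferInstance s G (max 1 M) hsm hGm
    (fun a => by
      refine le_trans ?_ (le_max_left 1 M)
      rw [abs_le]
      exact ⟨le_max_left _ _, max_le (by norm_num) (min_le_left _ _)⟩)
    (fun a => by
      refine le_trans ?_ (le_max_right 1 M)
      rw [hG]
      simp only
      rw [norm_mul, norm_ee, mul_one]; exact hM a) c hnull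
  have hpi : (-(2 * Real.pi)) ≠ 0 := by
    have := Real.pi_pos
    intro h; linarith
  rw [scale_lint _ _ hpi, scale_lint (fun x : ℝ => ‖∫ a, G a * ee (x * s a) ∂(sg 3)‖ₑ ^ p) _ hpi,
    mul_left_comm] at hmain
  have hk0 : ENNReal.ofReal |(-(2 * Real.pi))| ≠ 0 := by
    rw [Ne, ENNReal.ofReal_eq_zero, not_le]; exact abs_pos.2 hpi
  have hmain' := (ENNReal.mul_le_mul_iff_right hk0 ENNReal.ofReal_ne_top).1 hmain
  simp_rw [hA, hB]
  exact hmain'

theorem cutS_thm (h1 : S_rieszA) : S_cutS := by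
  intro p hp
  obtain ⟨C, hC, hR⟩ := h1 p hp
  refine ⟨C ^ (1 / p), Real.rpow_nonneg hC _, ?_⟩
  intro g M hg hM ω c hω
  obtain ⟨b, rfl⟩ := exists_basis ω hω
  obtain ⟨Φ, hΦ, h0, h2⟩ := exists_coord b
  have hp0 : 0 < p := by linarith
  have hH : MeasurableSet {x : E 3 | c ≤ ⟪b 0, x⟫} :=
    measurableSet_le measurable_const (by fun_prop)
  have key : ∫⁻ ξ, ‖SF ({x : E 3 | c ≤ ⟪b 0, x⟫}.indicator g) ξ‖ₑ ^ p ≤
      ENNReal.ofReal C * ∫⁻ ξ, ‖SF g ξ‖ₑ ^ p := by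
    have c1 : Measurable fun ξ => ‖SF ({x : E 3 | c ≤ ⟪b 0, x⟫}.indicator g) ξ‖ₑ ^ p := by
      refine Measurable.pow_const (Measurable.enorm ?_) p
      refine (SF_cont _ (hg.indicator hH) M ?_).measurable
      intro x
      exact (norm_indicator_le_norm_self _ _).trans (hM x)
    have c2 : Measurable fun ξ => ‖SF g ξ‖ₑ ^ p :=
      Measurable.pow_const (Measurable.enorm (SF_cont g hg M hM).measurable) p
    have trans : ∀ F : E 3 → ℝ≥0∞, Measurable F →
        ∫⁻ ξ, F ξ = ∫⁻ v : Fin 2 → ℝ, ∫⁻ τ : ℝ, F (Φ.symm (τ, v)) := by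
      intro F hF
      have e := hΦ.symm.lintegral_comp hF
      rw [← e]
      change ∫⁻ z, F (Φ.symm z) ∂(volume.prod volume) = _
      exact lintegral_prod_symm (fun z => F (Φ.symm z))
        (hF.comp Φ.symm.measurable).aemeasurable
    rw [trans _ c1, trans _ c2]
    rw [← lintegral_const_mul' _ _ ENNReal.ofReal_ne_top]
    refine lintegral_mono fun v => ?_
    exact fiber p C hR g M hg hM b c Φ h0 h2 v
  rw [eLpNorm_eq_lintegral_rpow_enorm_toReal (by simp [hp0]) ENNReal.ofReal_ne_top,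
    eLpNorm_eq_lintegral_rpow_enorm_toReal (by simp [hp0]) ENNReal.ofReal_ne_top,
    ENNReal.toReal_ofReal hp0.le]
  calc (∫⁻ ξ, ‖SF ({x : E 3 | c ≤ ⟪b 0, x⟫}.indicator g) ξ‖ₑ ^ p) ^ (1 / p)
      ≤ (ENNReal.ofReal C * ∫⁻ ξ, ‖SF g ξ‖ₑ ^ p) ^ (1 / p) :=
        ENNReal.rpow_le_rpow key (by positivity)
    _ = ENNReal.ofReal (C ^ (1 / p)) * (∫⁻ ξ, ‖SF g ξ‖ₑ ^ p) ^ (1 / p) := by
        rw [ENNReal.mul_rpow_of_nonneg _ _ (by positivity),
          ENNReal.ofReal_rpow_of_nonneg hC (by positivity)]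

end Pool.Agent.W131.PC2
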