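import Pool.Agent.W770.PC.Stms

set_option autoImplicit false

/-!
# Project PC, part `part`: the partition of unity of the stopping time
-/

open MeasureTheory Set Filter Topology

namespace Pool.Agent.W131.PCPart

open Pool.Agent.W770.PC

theorem sum_grid (a : ℕ) (y : ℝ × ℝ) : ∑ k ∈ grid a, bet a k y =
    (∑ i ∈ Finset.range (2 ^ a + 1), bump (2 ^ a * y.1 - i)) *
      ∑ j ∈ Finset.range (2 ^ a + 1), bump (2 ^ a * y.2 - j) := by
  unfold grid
  rw [Finset.sum_product, Finset.sum_mul_sum]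
  rfl

theorem part_thm (h1 : S_bump) : S_part := by
  obtain ⟨hb0, -, -, -, hs1, hs2, -⟩ := h1
  have hbet : ∀ (a : ℕ) (k : ℕ × ℕ) (y : ℝ × ℝ), 0 ≤ bet a k y :=
    fun a k y => mul_nonneg (hb0 _) (hb0 _)
  have hA : ∀ (a : ℕ) (y : ℝ × ℝ), y ∈ Sq → ∑ k ∈ grid a, bet a k y = 1 := by
    intro a y hy
    obtain ⟨hy1, hy2⟩ := hy
    have hp : (0 : ℝ) < 2 ^ a := by positivity
    have e1 : ∀ t : ℝ, t ∈ Icc (0 : ℝ) 1 →
        ∑ i ∈ Finset.range (2 ^ a + 1), bump (2 ^ a * t - i) = 1 := by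
      intro t ht
      apply hs1 (2 ^ a) (2 ^ a * t) (mul_nonneg hp.le ht.1)
      push_cast
      exact mul_le_of_le_one_right hp.le ht.2
    rw [sum_grid, e1 _ hy1, e1 _ hy2, mul_one]
  have hB : ∀ (a : ℕ) (y : ℝ × ℝ) (S : Finset (ℕ × ℕ)), S ⊆ grid a →
      0 ≤ ∑ k ∈ S, bet a k y ∧ ∑ k ∈ S, bet a k y ≤ 1 := by
    intro a y S hS
    refine ⟨Finset.sum_nonneg fun k _ => hbet a k y, ?_⟩
    calc ∑ k ∈ S, bet a k y ≤ ∑ k ∈ grid a, bet a k y :=
          Finset.sum_le_sum_of_subset_of_nonneg hS fun k _ _ => hbet a k y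
      _ ≤ 1 := by
          rw [sum_grid]
          exact mul_le_one₀ (hs2 _ _) (Finset.sum_nonneg fun k _ => hb0 _) (hs2 _ _)
  have hN : ∀ (g : ℝ × ℝ → ℝ) (a : ℕ) (y : ℝ × ℝ), 0 ≤ Nf g a y ∧ Nf g a y ≤ 1 :=
    fun g a y => hB a y _ (Finset.filter_subset _ _)
  refine ⟨hA, hB, ?_, ?_⟩
  · intro g a y
    exact ⟨Finset.prod_nonneg fun a' _ => (hN g a' y).1,
      Finset.prod_le_one (fun a' _ => (hN g a' y).1) fun a' _ => (hN g a' y).2⟩
  · intro g A y hy
    induction A with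
    | zero =>
      rw [Finset.sum_range_zero, zero_add]
      rfl
    | succ A ih =>
      have e1 : gg g (A + 1) y = gg g A y * Nf g A y := by
        unfold gg
        rw [Finset.prod_range_succ]
      have e2 : ∑ k ∈ FL g A, bet A k y + Nf g A y = 1 := by
        rw [← hA A y hy]
        unfold FL Nf
        classical
        rw [← Finset.sum_filter_add_sum_filter_not (grid A) (fun k => NN g A k ≤ 1)]
        congr 1
        refine Finset.sum_congr ?_ fun _ _ => rfl
        ext k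
        simp only [Finset.mem_filter, not_le]
      rw [Finset.sum_range_succ, ← Finset.mul_sum, e1, add_assoc, ← mul_add, e2, mul_one]
      exact ih

end Pool.Agent.W131.PCPart
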